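import Mathlib

open Filter Topology Set
open scoped ENNReal

namespace Pool.Agent.Results.MP_c6e2b4_co.LimitExists

/-- An axis-aligned rectangle `[a₁,b₁] × [a₂,b₂]` with `a₁ < b₁`, `a₂ < b₂`. -/
@[ext] structure Rect where
  a₁ : ℝ
  b₁ : ℝ
  a₂ : ℝ
  b₂ : ℝ
  h₁ : a₁ < b₁
  h₂ : a₂ < b₂

/-- The rectangle as a subset of the plane. -/
def Rect.toSet (R : Rect) : Set (ℝ × ℝ) := Icc R.a₁ R.b₁ ×ˢ Icc R.a₂ R.b₂

/-- The rectangle `R` and the cell `C` have intersecting interiors. -/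
def Meets (R : Rect) (C : Set (ℝ × ℝ)) : Prop := (interior R.toSet ∩ interior C).Nonempty

open Classical in
/-- Number of rectangles of `S` that meet the cell `C` in its interior. -/
noncomputable def count (S : Finset Rect) (C : Set (ℝ × ℝ)) : ℕ := (S.filter fun R => Meets R C).card

/-- `BSP S C k`: the cell `C` has an axis-aligned binary space partition for `S` with exactly `k`
fragments (pairs of a rectangle of `S` and a leaf cell with intersecting interiors).  A cell is a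
leaf when it meets at most one rectangle of `S`; otherwise it is cut, by a vertical or a horizontal
line through its interior, into two closed cells. -/
inductive BSP (S : Finset Rect) : Set (ℝ × ℝ) → ℕ → Prop
  | leaf (C : Set (ℝ × ℝ)) (h : count S C ≤ 1) : BSP S C (count S C)
  | vcut (C : Set (ℝ × ℝ)) (c : ℝ) (k l : ℕ) (h : 1 < count S C)
      (hc : ∃ p ∈ interior C, p.1 = c)
      (hl : BSP S (C ∩ {p | p.1 ≤ c}) k) (hr : BSP S (C ∩ {p | c ≤ p.1}) l) : BSP S C (k + l)
  | hcut (C : Set (ℝ × ℝ)) (c : ℝ) (k l : ℕ) (h : 1 < count S C)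
      (hc : ∃ p ∈ interior C, p.2 = c)
      (hl : BSP S (C ∩ {p | p.2 ≤ c}) k) (hr : BSP S (C ∩ {p | c ≤ p.2}) l) : BSP S C (k + l)

/-- The axis-aligned partition complexity of `S`: the minimum size of an axis-aligned BSP of `S`. -/
noncomputable def complexity (S : Finset Rect) : ℝ≥0∞ :=
  ⨅ k : ℕ, ⨅ _ : BSP S univ k, (k : ℝ≥0∞)

/-- The rectangles of `S` are pairwise disjoint. -/
def PDisj (S : Finset Rect) : Prop :=
  ∀ R ∈ S, ∀ R' ∈ S, R ≠ R' → Disjoint R.toSet R'.toSet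

/-- `f n`: the maximum of the complexity over sets of `n` pairwise disjoint rectangles. -/
noncomputable def f (n : ℕ) : ℝ≥0∞ :=
  ⨆ S : Finset Rect, ⨆ _ : S.card = n ∧ PDisj S, complexity S

theorem int_vl (C : Set (ℝ × ℝ)) (c : ℝ) :
    interior (C ∩ {p | p.1 ≤ c}) = interior C ∩ {p | p.1 < c} := by
  rw [interior_inter]
  congr 1
  have : {p : ℝ × ℝ | p.1 ≤ c} = Iic c ×ˢ (univ : Set ℝ) := by ext p; simp
  rw [this, interior_prod_eq, interior_Iic, interior_univ]
  ext p; simp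

theorem int_vr (C : Set (ℝ × ℝ)) (c : ℝ) :
    interior (C ∩ {p | c ≤ p.1}) = interior C ∩ {p | c < p.1} := by
  rw [interior_inter]
  congr 1
  have : {p : ℝ × ℝ | c ≤ p.1} = Ici c ×ˢ (univ : Set ℝ) := by ext p; simp
  rw [this, interior_prod_eq, interior_Ici, interior_univ]
  ext p; simp

theorem int_hl (C : Set (ℝ × ℝ)) (c : ℝ) :
    interior (C ∩ {p | p.2 ≤ c}) = interior C ∩ {p | p.2 < c} := by
  rw [interior_inter]
  congr 1
  have : {p : ℝ × ℝ | p.2 ≤ c} = (univ : Set ℝ) ×ˢ Iic c := by ext p; simp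
  rw [this, interior_prod_eq, interior_Iic, interior_univ]
  ext p; simp

theorem int_hr (C : Set (ℝ × ℝ)) (c : ℝ) :
    interior (C ∩ {p | c ≤ p.2}) = interior C ∩ {p | c < p.2} := by
  rw [interior_inter]
  congr 1
  have : {p : ℝ × ℝ | c ≤ p.2} = (univ : Set ℝ) ×ˢ Ici c := by ext p; simp
  rw [this, interior_prod_eq, interior_Ici, interior_univ]
  ext p; simp

theorem count_v_aux
    (int_vl : ∀ (C : Set (ℝ × ℝ)) (c : ℝ), interior (C ∩ {p | p.1 ≤ c}) = interior C ∩ {p | p.1 < c})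
    (int_vr : ∀ (C : Set (ℝ × ℝ)) (c : ℝ), interior (C ∩ {p | c ≤ p.1}) = interior C ∩ {p | c < p.1})
    (S : Finset Rect) (C : Set (ℝ × ℝ)) (c : ℝ) :
    count S C ≤ count S (C ∩ {p | p.1 ≤ c}) + count S (C ∩ {p | c ≤ p.1}) := by
  classical
  have key : ∀ R : Rect, Meets R C →
      Meets R (C ∩ {p | p.1 ≤ c}) ∨ Meets R (C ∩ {p | c ≤ p.1}) := by
    intro R hR
    obtain ⟨p, hp⟩ := hR
    have hop : IsOpen (interior R.toSet ∩ interior C) := isOpen_interior.inter isOpen_interior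
    obtain ⟨q, hq, hqc⟩ : ∃ q ∈ interior R.toSet ∩ interior C, q.1 ≠ c := by
      by_cases hpc : p.1 = c
      · have hV : IsOpen ((fun t : ℝ => (t, p.2)) ⁻¹' (interior R.toSet ∩ interior C)) :=
          hop.preimage (by fun_prop)
        have hcV : c ∈ (fun t : ℝ => (t, p.2)) ⁻¹' (interior R.toSet ∩ interior C) := by
          rw [← hpc]; exact hp
        obtain ⟨ε, hε, hball⟩ := Metric.isOpen_iff.1 hV c hcV
        refine ⟨(c + ε / 2, p.2), hball ?_, ?_⟩
        · rw [Metric.mem_ball, Real.dist_eq]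
          rw [add_sub_cancel_left, abs_of_pos (by positivity)]
          linarith
        · simp only
          linarith
      · exact ⟨p, hp, hpc⟩
    rcases lt_or_gt_of_ne hqc with h | h
    · left
      refine ⟨q, hq.1, ?_⟩
      rw [int_vl]
      exact ⟨hq.2, h⟩
    · right
      refine ⟨q, hq.1, ?_⟩
      rw [int_vr]
      exact ⟨hq.2, h⟩
  unfold count
  have hsub : (S.filter fun R => Meets R C) ⊆
      (S.filter fun R => Meets R (C ∩ {p | p.1 ≤ c})) ∪
      (S.filter fun R => Meets R (C ∩ {p | c ≤ p.1})) := by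
    intro R hR
    rw [Finset.mem_filter] at hR
    rw [Finset.mem_union, Finset.mem_filter, Finset.mem_filter]
    rcases key R hR.2 with h | h
    · exact Or.inl ⟨hR.1, h⟩
    · exact Or.inr ⟨hR.1, h⟩
  have h1 := (Finset.card_le_card hsub).trans (Finset.card_union_le _ _)
  convert h1

theorem count_v (S : Finset Rect) (C : Set (ℝ × ℝ)) (c : ℝ) :
    count S C ≤ count S (C ∩ {p | p.1 ≤ c}) + count S (C ∩ {p | c ≤ p.1}) :=
  count_v_aux int_vl int_vr S C c

theorem count_h_aux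
    (int_hl : ∀ (C : Set (ℝ × ℝ)) (c : ℝ), interior (C ∩ {p | p.2 ≤ c}) = interior C ∩ {p | p.2 < c})
    (int_hr : ∀ (C : Set (ℝ × ℝ)) (c : ℝ), interior (C ∩ {p | c ≤ p.2}) = interior C ∩ {p | c < p.2})
    (S : Finset Rect) (C : Set (ℝ × ℝ)) (c : ℝ) :
    count S C ≤ count S (C ∩ {p | p.2 ≤ c}) + count S (C ∩ {p | c ≤ p.2}) := by
  classical
  unfold count
  refine le_trans (Finset.card_le_card ?_) (Finset.card_union_le _ _)
  intro R hR
  rw [Finset.mem_filter] at hR
  obtain ⟨hRS, p, hpR, hpC⟩ := hR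
  have hU : IsOpen (interior R.toSet ∩ interior C) := isOpen_interior.inter isOpen_interior
  have hq : ∃ q ∈ interior R.toSet ∩ interior C, q.2 ≠ c := by
    by_cases hp : p.2 = c
    · have hcont : Continuous (fun t : ℝ => ((p.1, t) : ℝ × ℝ)) := by fun_prop
      have hV : IsOpen ((fun t : ℝ => ((p.1, t) : ℝ × ℝ)) ⁻¹' (interior R.toSet ∩ interior C)) :=
        hU.preimage hcont
      have hpV : p.2 ∈ ((fun t : ℝ => ((p.1, t) : ℝ × ℝ)) ⁻¹' (interior R.toSet ∩ interior C)) :=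
        ⟨hpR, hpC⟩
      obtain ⟨ε, hε, hb⟩ := Metric.isOpen_iff.mp hV p.2 hpV
      refine ⟨(p.1, p.2 + ε / 2), hb ?_, ?_⟩
      · rw [Metric.mem_ball, Real.dist_eq]
        rw [show p.2 + ε / 2 - p.2 = ε / 2 by ring, abs_of_pos (by linarith)]
        linarith
      · show p.2 + ε / 2 ≠ c
        intro h
        linarith
    · exact ⟨p, ⟨hpR, hpC⟩, hp⟩
  obtain ⟨q, ⟨hqR, hqC⟩, hqc⟩ := hq
  rw [Finset.mem_union, Finset.mem_filter, Finset.mem_filter]
  rcases lt_or_gt_of_ne hqc with h | h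
  · left
    refine ⟨hRS, q, hqR, ?_⟩
    rw [int_hl]
    exact ⟨hqC, h⟩
  · right
    refine ⟨hRS, q, hqR, ?_⟩
    rw [int_hr]
    exact ⟨hqC, h⟩

theorem count_h (S : Finset Rect) (C : Set (ℝ × ℝ)) (c : ℝ) :
    count S C ≤ count S (C ∩ {p | p.2 ≤ c}) + count S (C ∩ {p | c ≤ p.2}) :=
  count_h_aux int_hl int_hr S C c

theorem count_le {S : Finset Rect} {C : Set (ℝ × ℝ)} {k : ℕ} (h : BSP S C k) : count S C ≤ k := by
  induction h with
  | leaf C h => exact le_rfl
  | vcut C c k l h hc hl hr ihl ihr => exact (count_v S C c).trans (add_le_add ihl ihr)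
  | hcut C c k l h hc hl hr ihl ihr => exact (count_h S C c).trans (add_le_add ihl ihr)

open Classical in
theorem count_union {S T : Finset Rect} (hST : Disjoint S T) (C : Set (ℝ × ℝ)) :
    count (S ∪ T) C = count S C + count T C := by
  unfold count
  rw [Finset.filter_union, Finset.card_union_of_disjoint]
  exact Finset.disjoint_filter_filter hST

theorem merge_v {S : Finset Rect} {C : Set (ℝ × ℝ)} {c : ℝ} {k l : ℕ}
    (hc : ∃ p ∈ interior C, p.1 = c)
    (hl : BSP S (C ∩ {p | p.1 ≤ c}) k) (hr : BSP S (C ∩ {p | c ≤ p.1}) l) :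
    ∃ m ≤ k + l, BSP S C m := by
  by_cases h : count S C ≤ 1
  · exact ⟨_, (count_v S C c).trans (add_le_add (count_le hl) (count_le hr)), BSP.leaf C h⟩
  · exact ⟨_, le_rfl, BSP.vcut C c k l (not_le.1 h) hc hl hr⟩

theorem merge_h {S : Finset Rect} {C : Set (ℝ × ℝ)} {c : ℝ} {k l : ℕ}
    (hc : ∃ p ∈ interior C, p.2 = c)
    (hl : BSP S (C ∩ {p | p.2 ≤ c}) k) (hr : BSP S (C ∩ {p | c ≤ p.2}) l) :
    ∃ m ≤ k + l, BSP S C m := by
  by_cases h : count S C ≤ 1
  · exact ⟨_, (count_h S C c).trans (add_le_add (count_le hl) (count_le hr)), BSP.leaf C h⟩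
  · exact ⟨_, le_rfl, BSP.hcut C c k l (not_le.1 h) hc hl hr⟩

open Classical in
/-- a BSP of `S ∪ T` restricts to BSPs of `S` and of `T` whose sizes sum to at most its size -/
theorem restrict {S T : Finset Rect} (hST : Disjoint S T) {C : Set (ℝ × ℝ)} {k : ℕ}
    (h : BSP (S ∪ T) C k) : ∃ k₁ k₂, BSP S C k₁ ∧ BSP T C k₂ ∧ k₁ + k₂ ≤ k := by
  induction h with
  | leaf C h =>
    rw [count_union hST] at h ⊢
    exact ⟨_, _, BSP.leaf C (by omega), BSP.leaf C (by omega), le_rfl⟩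
  | vcut C c k l h hc hl hr ihl ihr =>
    obtain ⟨k₁, k₂, a1, a2, a3⟩ := ihl
    obtain ⟨l₁, l₂, b1, b2, b3⟩ := ihr
    obtain ⟨m₁, hm₁, B₁⟩ := merge_v hc a1 b1
    obtain ⟨m₂, hm₂, B₂⟩ := merge_v hc a2 b2
    exact ⟨m₁, m₂, B₁, B₂, by omega⟩
  | hcut C c k l h hc hl hr ihl ihr =>
    obtain ⟨k₁, k₂, a1, a2, a3⟩ := ihl
    obtain ⟨l₁, l₂, b1, b2, b3⟩ := ihr
    obtain ⟨m₁, hm₁, B₁⟩ := merge_h hc a1 b1
    obtain ⟨m₂, hm₂, B₂⟩ := merge_h hc a2 b2
    exact ⟨m₁, m₂, B₁, B₂, by omega⟩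

/-- horizontal translate of a rectangle -/
def shift (t : ℝ) (R : Rect) : Rect :=
  ⟨R.a₁ + t, R.b₁ + t, R.a₂, R.b₂, by linarith [R.h₁], R.h₂⟩

theorem shift_inj (t : ℝ) : Function.Injective (shift t) := by
  intro R R' h
  have h1 := congrArg Rect.a₁ h
  have h2 := congrArg Rect.b₁ h
  have h3 := congrArg Rect.a₂ h
  have h4 := congrArg Rect.b₂ h
  simp only [shift] at h1 h2 h3 h4
  ext <;> linarith

/-- translation of the plane as a homeomorphism -/
noncomputable def tr (t : ℝ) : ℝ × ℝ ≃ₜ ℝ × ℝ := Homeomorph.addRight ((t, 0) : ℝ × ℝ)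

theorem meets_shift (t : ℝ) (R : Rect) (C : Set (ℝ × ℝ)) :
    Meets (shift t R) C ↔ Meets R (tr t ⁻¹' C) := by
  have e : tr t ⁻¹' (shift t R).toSet = R.toSet := by
    ext p
    simp only [tr, shift, Rect.toSet, Set.mem_preimage, Homeomorph.coe_addRight, Set.mem_prod,
      Set.mem_Icc, Prod.fst_add, Prod.snd_add]
    constructor
    · rintro ⟨⟨h1, h2⟩, h3, h4⟩
      exact ⟨⟨by linarith, by linarith⟩, by linarith, by linarith⟩
    · rintro ⟨⟨h1, h2⟩, h3, h4⟩
      exact ⟨⟨by linarith, by linarith⟩, by linarith, by linarith⟩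
  unfold Meets
  rw [← e, ← Homeomorph.preimage_interior, ← Homeomorph.preimage_interior, ← Set.preimage_inter]
  constructor
  · intro h
    exact h.preimage (tr t).surjective
  · rintro ⟨x, hx⟩
    exact ⟨tr t x, hx⟩

open Classical in
theorem count_shift_aux
    (meets_shift : ∀ (t : ℝ) (R : Rect) (C : Set (ℝ × ℝ)), Meets (shift t R) C ↔ Meets R (tr t ⁻¹' C))
    (t : ℝ) (S : Finset Rect) (C : Set (ℝ × ℝ)) :
    count (S.image (shift t)) C = count S (tr t ⁻¹' C) := by
  have hinj : Function.Injective (shift t) := by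
    intro R R' hRR
    have h1 := congrArg Rect.a₁ hRR
    have h2 := congrArg Rect.b₁ hRR
    have h3 := congrArg Rect.a₂ hRR
    have h4 := congrArg Rect.b₂ hRR
    simp only [shift] at h1 h2 h3 h4
    apply Rect.ext
    · linarith
    · linarith
    · exact h3
    · exact h4
  unfold count
  rw [Finset.filter_image, Finset.card_image_of_injective _ hinj]
  congr 1
  apply Finset.filter_congr
  intro R _
  exact meets_shift t R C

open Classical in
theorem count_shift (t : ℝ) (S : Finset Rect) (C : Set (ℝ × ℝ)) :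
    count (S.image (shift t)) C = count S (tr t ⁻¹' C) :=
  count_shift_aux meets_shift t S C

open Classical in
theorem bsp_shift_aux
    (count_shift : ∀ (t : ℝ) (S : Finset Rect) (C : Set (ℝ × ℝ)),
      count (S.image (shift t)) C = count S (tr t ⁻¹' C))
    (t : ℝ) (S : Finset Rect) {C : Set (ℝ × ℝ)} {k : ℕ}
    (h : BSP (S.image (shift t)) C k) : BSP S (tr t ⁻¹' C) k := by
  have htr : ∀ p : ℝ × ℝ, tr t p = (p.1 + t, p.2) := by
    intro p
    show p + (t, 0) = (p.1 + t, p.2)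
    ext <;> simp
  have hsymm : ∀ p : ℝ × ℝ, (tr t) (p.1 - t, p.2) = p := by
    intro p
    rw [htr]
    ext <;> simp
  have hint : ∀ (C : Set (ℝ × ℝ)) (p : ℝ × ℝ), p ∈ interior C →
      (p.1 - t, p.2) ∈ interior (tr t ⁻¹' C) := by
    intro C p hp
    rw [← Homeomorph.preimage_interior]
    show tr t (p.1 - t, p.2) ∈ interior C
    rw [hsymm]
    exact hp
  induction h with
  | leaf C h =>
    rw [count_shift] at h ⊢
    exact BSP.leaf _ h
  | vcut C c k l h hc hl hr ihl ihr =>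
    have e1 : tr t ⁻¹' (C ∩ {p | p.1 ≤ c}) = tr t ⁻¹' C ∩ {p | p.1 ≤ c - t} := by
      ext p
      simp only [Set.mem_preimage, Set.mem_inter_iff, Set.mem_ofPred_eq, htr]
      constructor
      · rintro ⟨h1, h2⟩; exact ⟨h1, by linarith⟩
      · rintro ⟨h1, h2⟩; exact ⟨h1, by linarith⟩
    have e2 : tr t ⁻¹' (C ∩ {p | c ≤ p.1}) = tr t ⁻¹' C ∩ {p | c - t ≤ p.1} := by
      ext p
      simp only [Set.mem_preimage, Set.mem_inter_iff, Set.mem_ofPred_eq, htr]
      constructor
      · rintro ⟨h1, h2⟩; exact ⟨h1, by linarith⟩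
      · rintro ⟨h1, h2⟩; exact ⟨h1, by linarith⟩
    rw [count_shift] at h
    rw [e1] at ihl
    rw [e2] at ihr
    obtain ⟨p, hp, hpc⟩ := hc
    exact BSP.vcut _ (c - t) k l h ⟨(p.1 - t, p.2), hint C p hp, by simp [hpc]⟩ ihl ihr
  | hcut C c k l h hc hl hr ihl ihr =>
    have e1 : tr t ⁻¹' (C ∩ {p | p.2 ≤ c}) = tr t ⁻¹' C ∩ {p | p.2 ≤ c} := by
      ext p
      simp only [Set.mem_preimage, Set.mem_inter_iff, Set.mem_ofPred_eq, htr]
    have e2 : tr t ⁻¹' (C ∩ {p | c ≤ p.2}) = tr t ⁻¹' C ∩ {p | c ≤ p.2} := by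
      ext p
      simp only [Set.mem_preimage, Set.mem_inter_iff, Set.mem_ofPred_eq, htr]
    rw [count_shift] at h
    rw [e1] at ihl
    rw [e2] at ihr
    obtain ⟨p, hp, hpc⟩ := hc
    exact BSP.hcut _ c k l h ⟨(p.1 - t, p.2), hint C p hp, hpc⟩ ihl ihr

open Classical in
theorem bsp_shift (t : ℝ) (S : Finset Rect) {C : Set (ℝ × ℝ)} {k : ℕ}
    (h : BSP (S.image (shift t)) C k) : BSP S (tr t ⁻¹' C) k :=
  bsp_shift_aux count_shift t S h

open Classical in
theorem complexity_shift (t : ℝ) (S : Finset Rect) :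
    complexity S ≤ complexity (S.image (shift t)) := by
  refine le_iInf₂ fun k hk => ?_
  have := bsp_shift t S hk
  rw [preimage_univ] at this
  exact iInf₂_le k this

open Classical in
theorem complexity_union {S T : Finset Rect} (hST : Disjoint S T) :
    complexity S + complexity T ≤ complexity (S ∪ T) := by
  refine le_iInf₂ fun k hk => ?_
  obtain ⟨k₁, k₂, a1, a2, a3⟩ := restrict hST hk
  calc complexity S + complexity T ≤ (k₁ : ℝ≥0∞) + k₂ :=
        add_le_add (iInf₂_le k₁ a1) (iInf₂_le k₂ a2)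
    _ ≤ (k : ℝ≥0∞) := by exact_mod_cast a3

open Classical in
/-- two families of disjoint rectangles can be placed beside each other -/
theorem place {S T : Finset Rect} (hS : PDisj S) (hT : PDisj T) :
    ∃ t : ℝ, Disjoint S (T.image (shift t)) ∧ PDisj (S ∪ T.image (shift t)) := by
  classical
  obtain ⟨M₁, hM₁⟩ : ∃ M : ℝ, ∀ R ∈ S, R.b₁ ≤ M := by
    obtain ⟨M, hM⟩ := (S.image Rect.b₁).bddAbove
    exact ⟨M, fun R hR => hM (by simpa using ⟨R, hR, rfl⟩)⟩
  obtain ⟨M₂, hM₂⟩ : ∃ M : ℝ, ∀ R ∈ T, M ≤ R.a₁ := by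
    obtain ⟨M, hM⟩ := (T.image Rect.a₁).bddBelow
    exact ⟨M, fun R hR => hM (by simpa using ⟨R, hR, rfl⟩)⟩
  set t : ℝ := M₁ - M₂ + 1 with ht
  have hcross : ∀ R ∈ S, ∀ R' ∈ T, Disjoint R.toSet (shift t R').toSet := by
    intro R hR R' hR'
    rw [Set.disjoint_left]
    rintro p hp hq
    simp only [Rect.toSet, shift, Set.mem_prod, Set.mem_Icc] at hp hq
    have h1 := hM₁ R hR
    have h2 := hM₂ R' hR'
    linarith [hp.1.2, hq.1.1]
  have hne : ∀ R : Rect, R.toSet.Nonempty := by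
    intro R
    exact ⟨(R.a₁, R.a₂), by simp [Rect.toSet, R.h₁.le, R.h₂.le]⟩
  refine ⟨t, ?_, ?_⟩
  · rw [Finset.disjoint_left]
    intro R hR hR2
    obtain ⟨R', hR', rfl⟩ := Finset.mem_image.1 hR2
    have := hcross _ hR R' hR'
    rw [disjoint_self] at this
    exact (hne (shift t R')).ne_empty this
  · intro R hR R' hR' hRR
    rw [Finset.mem_union] at hR hR'
    rcases hR with hR | hR <;> rcases hR' with hR' | hR'
    · exact hS R hR R' hR' hRR
    · obtain ⟨Q, hQ, rfl⟩ := Finset.mem_image.1 hR'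
      exact hcross R hR Q hQ
    · obtain ⟨Q, hQ, rfl⟩ := Finset.mem_image.1 hR
      exact (hcross R' hR' Q hQ).symm
    · obtain ⟨Q, hQ, rfl⟩ := Finset.mem_image.1 hR
      obtain ⟨Q', hQ', rfl⟩ := Finset.mem_image.1 hR'
      have hQQ : Q ≠ Q' := fun h => hRR (by rw [h])
      have hd := hT Q hQ Q' hQ' hQQ
      rw [Set.disjoint_left] at hd ⊢
      intro p hp hq
      refine hd (a := (p.1 - t, p.2)) ?_ ?_
      · simp only [Rect.toSet, shift, Set.mem_prod, Set.mem_Icc] at hp ⊢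
        exact ⟨⟨by linarith [hp.1.1], by linarith [hp.1.2]⟩, hp.2⟩
      · simp only [Rect.toSet, shift, Set.mem_prod, Set.mem_Icc] at hq ⊢
        exact ⟨⟨by linarith [hq.1.1], by linarith [hq.1.2]⟩, hq.2⟩

/-- unit squares far apart -/
noncomputable def usq (i : ℕ) : Rect :=
  ⟨3 * (i : ℝ), 3 * (i : ℝ) + 1, 0, 1, by linarith, by norm_num⟩

theorem usq_inj : Function.Injective usq := by
  intro i j h
  have h1 : (3 * (i : ℝ)) = 3 * (j : ℝ) := congrArg Rect.a₁ h
  have h2 : (i : ℝ) = j := by linarith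
  exact_mod_cast h2

open Classical in
theorem fam_nonempty (n : ℕ) : ∃ S : Finset Rect, S.card = n ∧ PDisj S := by
  refine ⟨(Finset.range n).image usq, ?_, ?_⟩
  · rw [Finset.card_image_of_injective _ usq_inj, Finset.card_range]
  · intro R hR R' hR' hne
    obtain ⟨i, _, rfl⟩ := Finset.mem_image.1 hR
    obtain ⟨j, _, rfl⟩ := Finset.mem_image.1 hR'
    have hij : i ≠ j := fun h => hne (by rw [h])
    rw [Set.disjoint_left]
    rintro ⟨u, v⟩ ⟨h1, _⟩ ⟨h2, _⟩
    have h1a : 3 * (i : ℝ) ≤ u := h1.1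
    have h1b : u ≤ 3 * (i : ℝ) + 1 := h1.2
    have h2a : 3 * (j : ℝ) ≤ u := h2.1
    have h2b : u ≤ 3 * (j : ℝ) + 1 := h2.2
    rcases Nat.lt_or_gt_of_ne hij with h | h
    · have : (i : ℝ) + 1 ≤ j := by exact_mod_cast h
      linarith
    · have : (j : ℝ) + 1 ≤ i := by exact_mod_cast h
      linarith

theorem shift_inj_f_superadd (t : ℝ) : Function.Injective (shift t) := by
  intro R R' h
  have h1 : R.a₁ + t = R'.a₁ + t := congrArg Rect.a₁ h
  have h2 : R.b₁ + t = R'.b₁ + t := congrArg Rect.b₁ h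
  have h3 : (shift t R).a₂ = (shift t R').a₂ := congrArg Rect.a₂ h
  have h4 : (shift t R).b₂ = (shift t R').b₂ := congrArg Rect.b₂ h
  exact Rect.ext (by linarith) (by linarith) h3 h4

open Classical in
theorem f_superadd_aux
    (complexity_shift : ∀ (t : ℝ) (S : Finset Rect), complexity S ≤ complexity (S.image (shift t)))
    (complexity_union : ∀ {S T : Finset Rect}, Disjoint S T → complexity S + complexity T ≤ complexity (S ∪ T))
    (place : ∀ {S T : Finset Rect}, PDisj S → PDisj T →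
      ∃ t : ℝ, Disjoint S (T.image (shift t)) ∧ PDisj (S ∪ T.image (shift t)))
    (m n : ℕ) : f m + f n ≤ f (m + n) := by
  unfold f
  refine ENNReal.biSup_add_biSup_le' (fam_nonempty m) (fam_nonempty n) ?_
  rintro S ⟨hS, hSd⟩ T ⟨hT, hTd⟩
  obtain ⟨t, h1, h2⟩ := place hSd hTd
  have hcard : (S ∪ T.image (shift t)).card = m + n := by
    rw [Finset.card_union_of_disjoint h1, Finset.card_image_of_injective _ (shift_inj_f_superadd t), hS, hT]
  calc complexity S + complexity T ≤ complexity S + complexity (T.image (shift t)) :=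
        add_le_add le_rfl (complexity_shift t T)
    _ ≤ complexity (S ∪ T.image (shift t)) := complexity_union h1
    _ ≤ _ := le_iSup₂ (f := fun (U : Finset Rect) (_ : U.card = m + n ∧ PDisj U) => complexity U)
        (S ∪ T.image (shift t)) ⟨hcard, h2⟩

/-- `f` is superadditive -/
theorem f_superadd (m n : ℕ) : f m + f n ≤ f (m + n) :=
  f_superadd_aux complexity_shift complexity_union place m n

theorem f_zero : f 0 = 0 := by
  unfold f
  refine le_antisymm (iSup₂_le ?_) bot_le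
  rintro S ⟨hS, -⟩
  rw [Finset.card_eq_zero] at hS
  subst hS
  have h0 : count ∅ univ = 0 := by simp [count]
  have : BSP ∅ univ 0 := by
    have := BSP.leaf (S := ∅) univ (by rw [h0]; norm_num)
    rwa [h0] at this
  calc complexity ∅ ≤ ((0 : ℕ) : ℝ≥0∞) := iInf₂_le 0 this
    _ = 0 := by simp

/-- Fekete's lemma for superadditive sequences in `[0,∞]` -/
theorem fekete (u : ℕ → ℝ≥0∞) (h0 : u 0 = 0) (h : ∀ m n, u m + u n ≤ u (m + n)) :
    Tendsto (fun n : ℕ => u n / n) atTop (𝓝 (⨆ n : ℕ, u n / n)) := by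
  have hmono : ∀ m n, m ≤ n → u m ≤ u n := by
    intro m n hmn
    obtain ⟨k, rfl⟩ := Nat.exists_eq_add_of_le hmn
    exact le_self_add.trans (h m k)
  have hmul : ∀ q m : ℕ, (q : ℝ≥0∞) * u m ≤ u (q * m) := by
    intro q m
    induction q with
    | zero => simp
    | succ q ih =>
      have h1 := h (q * m) m
      calc ((q + 1 : ℕ) : ℝ≥0∞) * u m = (q : ℝ≥0∞) * u m + u m := by push_cast; ring
        _ ≤ u (q * m) + u m := by gcongr
        _ ≤ u (q * m + m) := h1
        _ = u ((q + 1) * m) := by rw [Nat.succ_mul]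
  rw [tendsto_order]
  constructor
  · intro a ha
    obtain ⟨m, hm⟩ := lt_iSup_iff.1 ha
    have hm0 : m ≠ 0 := by
      rintro rfl
      simp [h0] at hm
    have hmpos : (0 : ℝ) < m := by exact_mod_cast Nat.pos_of_ne_zero hm0
    have hlim : Tendsto (fun n : ℕ => ((n / m : ℕ) : ℝ) / n) atTop (𝓝 ((m : ℝ)⁻¹)) := by
      have h1 := (tendsto_nat_floor_mul_div_atTop (R := ℝ) (a := (m : ℝ)⁻¹) (by positivity)).comp
        (tendsto_natCast_atTop_atTop (R := ℝ))
      refine h1.congr fun n => ?_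
      simp only [Function.comp]
      congr 2
      rw [inv_mul_eq_div, Nat.floor_div_natCast, Nat.floor_natCast]
    have hlim2 : Tendsto (fun n : ℕ => ENNReal.ofReal (((n / m : ℕ) : ℝ) / n) * u m) atTop
        (𝓝 (ENNReal.ofReal ((m : ℝ)⁻¹) * u m)) := by
      refine ENNReal.Tendsto.mul_const (ENNReal.tendsto_ofReal hlim) (Or.inl ?_)
      simp [hmpos]
    have hval : ENNReal.ofReal ((m : ℝ)⁻¹) * u m = u m / m := by
      rw [ENNReal.ofReal_inv_of_pos hmpos, ENNReal.ofReal_natCast, mul_comm, ENNReal.div_eq_inv_mul,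
        mul_comm]
    rw [hval] at hlim2
    have hev := (tendsto_order.1 hlim2).1 a hm
    filter_upwards [hev, eventually_ge_atTop 1] with n hn hn1
    refine lt_of_lt_of_le hn ?_
    have hnpos : (0 : ℝ) < n := by exact_mod_cast hn1
    rw [ENNReal.ofReal_div_of_pos hnpos, ENNReal.ofReal_natCast, ENNReal.ofReal_natCast,
      ENNReal.div_eq_inv_mul, ENNReal.div_eq_inv_mul, mul_assoc]
    gcongr
    exact (hmul (n / m) m).trans (hmono _ _ (Nat.div_mul_le_self n m))
  · intro a ha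
    exact Eventually.of_forall fun n => lt_of_le_of_lt (le_iSup (fun n : ℕ => u n / n) n) ha

/-- `f` is superadditive and `f n / n` converges in `[0,∞]`, to its supremum. -/
theorem result : (∀ m n : ℕ, f m + f n ≤ f (m + n)) ∧
    Tendsto (fun n : ℕ => f n / n) atTop (𝓝 (⨆ n : ℕ, f n / n)) :=
  ⟨f_superadd, fekete f f_zero f_superadd⟩

end Pool.Agent.Results.MP_c6e2b4_co.LimitExists
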